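import Pool.Agent.H92.TH.Bas
import Pool.Agent.H62.EF.LimL
import Pool.Agent.H62.EF.ZalA
import Pool.Agent.H36.BP.Brody

/-!
# TH Zal: curves on which the symmetric differentials are bounded have bounded derivative

Let `θ j` be symmetric differentials of degrees `m j ≥ 1` such that no nonconstant Brody curve is tangent to all of them.  Then the entire
curves `F` in `X` with `|θ j (F')| ≤ 1` for all `j` have `fs (F, F') ≤ L`.  Otherwise `rescale_fs` gives entire curves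
`G n ζ = F n (w n + ζ / a n)`, `a n > 4 (n + 1)`, with `fs (G n 0) ((G n)' 0) = 1` and `fs ≤ 2` on `ball 0 (n + 1)`.  We have
`|θ j ((G n)')| ≤ (a n) ^ (- m j) → 0`, so all `θ j` vanish on the derivative of the limit curve.
-/

set_option autoImplicit false

open Topology Filter Metric

namespace Pool.Agent.H92.TH

open Pool.Agent.H36.BP (EN fs wd)
open Pool.Agent.H14.PP (IsCone Chart Form Tan CurveAt IsOpenPart)
open Pool.Agent.H62.EF (Charts pr limit_curves rescale_fs)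

variable {N : ℕ} {X : Set (EN N)}

/-- No nonconstant Brody curve in `X` is tangent to all `θ j`. -/
def NoTangentBrody {k : ℕ} {m : Fin k → ℕ} (θ : ∀ j, SymDiff X (m j)) : Prop :=
  ∀ F : ℂ → EN N, Differentiable ℂ F → (∀ z, F z ∈ X) → (∀ z, fs (F z) (deriv F z) ≤ 1) →
    (∀ j z, (θ j).toFun (F z) (deriv F z) = 0) → ∀ z w, ∃ c : ℂ, F z = c • F w

/-- The values of `θ` on the derivatives of a convergent sequence of curves. -/
theorem SymDiff.tendsto {m : ℕ} (hX : IsCone X) (hch : Charts X) (θ : SymDiff X m) {l : Filter ℕ} {φ : ℕ → ℂ → EN N} {ψ : ℂ → EN N}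
    {z₀ : ℂ} {r : ℝ} (hr : 0 < r) (hφ : ∀ᶠ n in l, DifferentiableOn ℂ (φ n) (ball z₀ r) ∧ ∀ z ∈ ball z₀ r, φ n z ∈ X)
    (hψ : DifferentiableOn ℂ ψ (ball z₀ r)) (hψX : ∀ z ∈ ball z₀ r, ψ z ∈ X) (hlim : TendstoLocallyUniformlyOn φ ψ l (ball z₀ r)) :
    Tendsto (fun n => θ.toFun (φ n z₀) (deriv (φ n) z₀)) l (𝓝 (θ.toFun (ψ z₀) (deriv ψ z₀))) := by
  have hz₀ : z₀ ∈ ball z₀ r := mem_ball_self hr
  have hnb : ball z₀ r ∈ 𝓝 z₀ := isOpen_ball.mem_nhds hz₀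
  have h1 : Tendsto (fun n => φ n z₀) l (𝓝 (ψ z₀)) := hlim.tendsto_at hz₀
  have h2 : Tendsto (fun n => deriv (φ n) z₀) l (𝓝 (deriv ψ z₀)) := by
    have h3 := hlim.deriv (hφ.mono fun n hn => hn.1) isOpen_ball
    exact h3.tendsto_at hz₀
  obtain ⟨χ, hU, _⟩ := hch (ψ z₀) (hψX z₀ hz₀)
  have hψc : CurveAt X ψ z₀ := ⟨hψ.analyticAt hnb, by filter_upwards [hnb] with z hz using hψX z hz⟩
  have hev : ∀ᶠ n in l, θ.toFun (φ n z₀) (deriv (φ n) z₀) =
      tC θ χ (χ.q (φ n z₀), fderiv ℂ χ.q (φ n z₀) (deriv (φ n) z₀)) := by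
    filter_upwards [hφ, h1 (χ.isOpen_U.mem_nhds hU)] with n hn hn2
    have hc : CurveAt X (φ n) z₀ := ⟨hn.1.analyticAt hnb, by filter_upwards [hnb] with z hz using hn.2 z hz⟩
    have hn3 : φ n z₀ ∈ χ.U := hn2
    rw [SymDiff.curve hX θ χ hc hn3, (χ.curve hX hc hn3).2.1]
  rw [SymDiff.curve hX θ χ hψc hU, (χ.curve hX hψc hU).2.1]
  refine Tendsto.congr' (EventuallyEq.symm hev) ?_
  have hp : χ.q (ψ z₀) ∈ ball (0 : ℂ × ℂ) 2 := (χ.surj _ (hψX z₀ hz₀) hU).1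
  have h3 : Tendsto (fun n => χ.q (φ n z₀)) l (𝓝 (χ.q (ψ z₀))) := (χ.q_an _ hU).continuousAt.tendsto.comp h1
  have h4 : Tendsto (fun n => fderiv ℂ χ.q (φ n z₀)) l (𝓝 (fderiv ℂ χ.q (ψ z₀))) :=
    (χ.q_an _ hU).fderiv.continuousAt.tendsto.comp h1
  have h5 : Tendsto (fun n => fderiv ℂ χ.q (φ n z₀) (deriv (φ n) z₀)) l (𝓝 (fderiv ℂ χ.q (ψ z₀) (deriv ψ z₀))) :=
    ((isBoundedBilinearMap_apply (𝕜 := ℂ) (E := EN N) (F := ℂ × ℂ)).continuous.tendsto (_, _)).comp (h4.prodMk_nhds h2)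
  exact (tC_an θ χ hp _).continuousAt.tendsto.comp (h3.prodMk_nhds h5)

/-- The chain rule for affine maps. -/
theorem SymDiff.comp_affine {m : ℕ} (θ : SymDiff X m) {F : ℂ → EN N} (hF : Differentiable ℂ F) (hFX : ∀ z, F z ∈ X) (a b z : ℂ) :
    θ.toFun (F (b + a * z)) (deriv (fun ζ => F (b + a * ζ)) z) = a ^ m * θ.toFun (F (b + a * z)) (deriv F (b + a * z)) := by
  have h1 : HasDerivAt (fun ζ : ℂ => b + a * ζ) a z := by
    simpa using ((hasDerivAt_id z).const_mul a).const_add b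
  have h2 : deriv (fun ζ => F (b + a * ζ)) z = a • deriv F (b + a * z) :=
    ((hF (b + a * z)).hasDerivAt.scomp z h1).deriv
  have ht : Tan X (F (b + a * z)) (deriv F (b + a * z)) := by
    refine ⟨fun ζ => F (b + a * z + ζ), ⟨?_, Eventually.of_forall fun ζ => hFX _⟩, by simp, ?_⟩
    · exact (hF.comp (differentiable_id.const_add _)).analyticAt 0
    · have h3 : HasDerivAt (fun ζ : ℂ => b + a * z + ζ) 1 0 := by
        simpa using (hasDerivAt_id (0 : ℂ)).const_add (b + a * z)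
      have h4 : HasDerivAt F (deriv F (b + a * z)) ((fun ζ : ℂ => b + a * z + ζ) 0) := by
        simpa using (hF (b + a * z)).hasDerivAt
      have h5 := (h4.scomp (0 : ℂ) h3).deriv
      rw [one_smul] at h5
      exact h5
  rw [h2]
  exact θ.smul _ (hFX _) _ ht a

theorem exists_lipschitz (hX : IsCone X) (hch : Charts X) {k : ℕ} {m : Fin k → ℕ} (hm : ∀ j, 1 ≤ m j) (θ : ∀ j, SymDiff X (m j))
    (hNT : NoTangentBrody θ) : ∃ L : ℝ, 0 < L ∧ ∀ F : ℂ → EN N, Differentiable ℂ F → (∀ z, F z ∈ X) →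
      (∀ j z, ‖(θ j).toFun (F z) (deriv F z)‖ ≤ 1) → ∀ z, fs (F z) (deriv F z) ≤ L := by
  by_contra hcon
  push Not at hcon
  have hbig : ∀ n : ℕ, ∃ F : ℂ → EN N, Differentiable ℂ F ∧ (∀ z, F z ∈ X) ∧ (∀ j z, ‖(θ j).toFun (F z) (deriv F z)‖ ≤ 1) ∧
      ∃ z, 4 * ((n : ℝ) + 1) < fs (F z) (deriv F z) := fun n => hcon _ (by positivity)
  choose F hFd hFX hFθ zc hzc using hbig
  have hX0 : ∀ x ∈ X, x ≠ 0 := fun x hx h => hX.zero_notMem (h ▸ hx)
  have hresc : ∀ n : ℕ, ∃ (z₀ : ℂ) (a : ℝ), 4 * ((n : ℝ) + 1) < a ∧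
      fs (F n (z₀ + zc n)) (deriv (fun ζ => F n (z₀ + ((a⁻¹ : ℝ) : ℂ) * ζ + zc n)) 0) = 1 ∧
      ∀ ζ ∈ ball (0 : ℂ) (n + 1), fs (F n (z₀ + ((a⁻¹ : ℝ) : ℂ) * ζ + zc n))
        (deriv (fun ζ => F n (z₀ + ((a⁻¹ : ℝ) : ℂ) * ζ + zc n)) ζ) ≤ 2 := by
    intro n
    have hd : Differentiable ℂ (fun z => F n (z + zc n)) := (hFd n).comp (differentiable_id.add_const _)
    refine rescale_fs hd (fun z => hX0 _ (hFX n _)) n ?_
    rw [deriv_comp_add_const]
    simpa using hzc n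
  choose z₀ a ha h1 h2 using hresc
  have ha0 : ∀ n, 0 < a n := fun n => lt_trans (by positivity) (ha n)
  have hform : ∀ n ζ, z₀ n + (((a n)⁻¹ : ℝ) : ℂ) * ζ + zc n = (z₀ n + zc n) + (((a n)⁻¹ : ℝ) : ℂ) * ζ := fun n ζ => by ring
  simp only [hform] at h1 h2
  set G : ℕ → ℂ → EN N := fun n ζ => F n ((z₀ n + zc n) + (((a n)⁻¹ : ℝ) : ℂ) * ζ) with hGdef
  have hGd : ∀ n, Differentiable ℂ (G n) := by
    intro n
    exact (hFd n).comp ((differentiable_id.const_mul _).const_add _)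
  have hGX : ∀ n ζ, G n ζ ∈ X := fun n ζ => hFX n _
  have hG1 : ∀ n, fs (G n 0) (deriv (G n) 0) = 1 := by
    intro n
    have := h1 n
    rw [hGdef]
    simpa only [mul_zero, add_zero] using this
  have hGθ : ∀ n j ζ, ‖(θ j).toFun (G n ζ) (deriv (G n) ζ)‖ ≤ (a n)⁻¹ := by
    intro n j ζ
    have h3 := (θ j).comp_affine (hFd n) (hFX n) (((a n)⁻¹ : ℝ) : ℂ) (z₀ n + zc n) ζ
    rw [show (θ j).toFun (G n ζ) (deriv (G n) ζ) = _ from h3, norm_mul, norm_pow, Complex.norm_real,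
      Real.norm_of_nonneg (inv_nonneg.mpr (ha0 n).le)]
    have h4 : (a n)⁻¹ ≤ 1 := by
      refine inv_le_one_of_one_le₀ ?_
      have := ha n
      have h5 : (0 : ℝ) ≤ n := Nat.cast_nonneg n
      linarith
    have h6 : (a n)⁻¹ ^ m j ≤ (a n)⁻¹ := by
      calc (a n)⁻¹ ^ m j ≤ (a n)⁻¹ ^ 1 := pow_le_pow_of_le_one (inv_nonneg.mpr (ha0 n).le) h4 (hm j)
        _ = (a n)⁻¹ := pow_one _
    calc (a n)⁻¹ ^ m j * _ ≤ (a n)⁻¹ * 1 :=
          mul_le_mul h6 (hFθ n j _) (norm_nonneg _) (inv_nonneg.mpr (ha0 n).le)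
      _ = (a n)⁻¹ := mul_one _
  set 𝒰 : Ultrafilter ℕ := hyperfilter ℕ with h𝒰
  have hle : (𝒰 : Filter ℕ) ≤ atTop := Nat.hyperfilter_le_atTop
  have hρ : Tendsto (fun n : ℕ => (n : ℝ) + 1) 𝒰 atTop :=
    (tendsto_atTop_add_const_right _ _ tendsto_natCast_atTop_atTop).mono_left hle
  have hainv : Tendsto (fun n => (a n)⁻¹) 𝒰 (𝓝 0) := by
    have h3 : Tendsto a 𝒰 atTop := by
      refine tendsto_atTop_mono (fun n => ?_) hρ
      have := ha n
      have h4 : (0 : ℝ) ≤ n := Nat.cast_nonneg n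
      linarith
    exact tendsto_inv_atTop_zero.comp h3
  obtain ⟨H, hH, hHX, hpr, hfs, hloc⟩ := limit_curves hX (L := 2) two_pos 𝒰 G (fun n : ℕ => (n : ℝ) + 1) hρ
    (Eventually.of_forall fun n => ⟨(hGd n).differentiableOn, fun z hz => ⟨hGX n z, h2 n z hz⟩⟩)
  have hH0 : ∀ z, H z ≠ 0 := fun z => hX0 _ (hHX z)
  have hone : fs (H 0) (deriv H 0) = 1 := by
    have h3 := hfs 0
    simp only [hG1] at h3
    exact (tendsto_nhds_unique h3 tendsto_const_nhds)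
  have htwo : ∀ z, fs (H z) (deriv H z) ≤ 2 := by
    intro z
    refine le_of_tendsto (hfs z) ?_
    filter_upwards [hρ.eventually_gt_atTop ‖z‖] with n hn
    exact h2 n z (by rwa [mem_ball_zero_iff])
  have hθ0 : ∀ j z, (θ j).toFun (H z) (deriv H z) = 0 := by
    intro j z
    obtain ⟨r, φ, ψ, hr, hφ, hψ, hψH, hlim⟩ := hloc z
    have hz : z ∈ ball z r := mem_ball_self hr
    have hnb : ball z r ∈ 𝓝 z := isOpen_ball.mem_nhds hz
    have hψX : ∀ w ∈ ball z r, ψ w ∈ X := by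
      intro w hw
      obtain ⟨c, hc, h3⟩ := hψH w hw
      rw [h3]
      exact hX.smul_mem _ (hHX w) c hc
    have hφX : ∀ᶠ n in (𝒰 : Filter ℕ), DifferentiableOn ℂ (φ n) (ball z r) ∧ ∀ w ∈ ball z r, φ n w ∈ X := by
      filter_upwards [hφ] with n hn
      refine ⟨hn.1, fun w hw => ?_⟩
      obtain ⟨c, hc, h3⟩ := hn.2 w hw
      rw [h3]
      exact hX.smul_mem _ (hGX n w) c hc
    have h3 := SymDiff.tendsto hX hch (θ j) hr hφX hψ hψX hlim
    have h4 : ∀ᶠ n in (𝒰 : Filter ℕ), ‖(θ j).toFun (φ n z) (deriv (φ n) z)‖ ≤ (a n)⁻¹ := by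
      filter_upwards [hφ, hφX] with n hn hn2
      have h5 : (θ j).toFun (φ n z) (deriv (φ n) z) = (θ j).toFun (G n z) (deriv (G n) z) := by
        refine SymDiff.lift_eq hX hch (θ j) ⟨hn.1.analyticAt hnb, ?_⟩ ⟨(hGd n).analyticAt z, Eventually.of_forall (hGX n)⟩ ?_
        · filter_upwards [hnb] with w hw using hn2.2 w hw
        · filter_upwards [hnb] with w hw using hn.2 w hw
      rw [h5]
      exact hGθ n j z
    have h6 : (θ j).toFun (ψ z) (deriv ψ z) = 0 := by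
      have h7 : Tendsto (fun n => (θ j).toFun (φ n z) (deriv (φ n) z)) 𝒰 (𝓝 0) := squeeze_zero_norm' h4 hainv
      exact tendsto_nhds_unique h3 h7
    rw [← h6]
    symm
    refine SymDiff.lift_eq hX hch (θ j) ⟨hψ.analyticAt hnb, ?_⟩ ⟨hH.analyticAt z, Eventually.of_forall hHX⟩ ?_
    · filter_upwards [hnb] with w hw using hψX w hw
    · filter_upwards [hnb] with w hw using hψH w hw
  -- rescale to speed at most one
  have hK : ∀ z w, ∃ c : ℂ, H (0 + (1 / 2 : ℂ) * z) = c • H (0 + (1 / 2 : ℂ) * w) := by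
    have hd : Differentiable ℂ (fun z : ℂ => H (0 + (1 / 2 : ℂ) * z)) := hH.comp ((differentiable_id.const_mul _).const_add _)
    have hder : ∀ z, deriv (fun ζ : ℂ => H (0 + (1 / 2 : ℂ) * ζ)) z = (1 / 2 : ℂ) • deriv H (0 + (1 / 2 : ℂ) * z) := by
      intro z
      have h3 : HasDerivAt (fun ζ : ℂ => 0 + (1 / 2 : ℂ) * ζ) (1 / 2 : ℂ) z := by
        simpa using ((hasDerivAt_id z).const_mul (1 / 2 : ℂ)).const_add 0
      exact ((hH (0 + (1 / 2 : ℂ) * z)).hasDerivAt.scomp z h3).deriv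
    refine hNT (fun z : ℂ => H (0 + (1 / 2 : ℂ) * z)) hd (fun z => hHX _) ?_ ?_
    · intro z
      rw [hder z, Pool.Agent.H36.BP.fs_smul_right]
      have h3 := htwo (0 + (1 / 2 : ℂ) * z)
      have h4 : ‖(1 / 2 : ℂ)‖ = 1 / 2 := by norm_num
      rw [h4]
      linarith
    · intro j z
      rw [(θ j).comp_affine hH hHX (1 / 2 : ℂ) 0 z, hθ0, mul_zero]
  obtain ⟨b, hb⟩ := Pool.Agent.H36.BP.Brody_deriv_line (hH 0) (fun z => by
    have h3 := hK (2 * z) 0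
    simpa using h3)
  have h3 : wd (H 0) (deriv H 0) = 0 := (Pool.Agent.H36.BP.wd_eq_zero (hH0 0)).mpr ⟨b, hb⟩
  unfold fs at hone
  rw [h3, zero_div] at hone
  exact zero_ne_one hone

end Pool.Agent.H92.TH
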