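import Pool.Agent.H62.EF.Defs

/-!
# TH Defs: symmetric differentials on a projective surface

`X` is the cone (without `0`) of a smooth projective surface.  A symmetric differential of degree `m` is a holomorphic function on the
tangent bundle which is homogeneous of degree `m` on the tangent spaces, here in the language of the cone (as `Form` in `H14/PP/Defs.lean`).
-/

set_option autoImplicit false

open Topology Filter Metric

namespace Pool.Agent.H92.TH

open Pool.Agent.H36.BP (EN fs wd)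
open Pool.Agent.H14.PP (IsCone Chart Form Tan)

variable {N : ℕ}

/-- A symmetric differential of degree `m` on the surface whose cone is `X`. -/
structure SymDiff (X : Set (EN N)) (m : ℕ) where
  /-- the differential -/
  toFun : EN N → EN N → ℂ
  add_smul : ∀ x ∈ X, ∀ v, Tan X x v → ∀ a : ℂ, toFun x (v + a • x) = toFun x v
  smul : ∀ x ∈ X, ∀ v, Tan X x v → ∀ a : ℂ, toFun x (a • v) = a ^ m * toFun x v
  scale : ∀ x ∈ X, ∀ v, Tan X x v → ∀ c : ℂ, c ≠ 0 → toFun (c • x) (c • v) = toFun x v
  analytic : ∀ (φ : ℂ × ℂ → EN N) (p w : ℂ × ℂ), AnalyticAt ℂ φ p → (∀ᶠ y in 𝓝 p, φ y ∈ X) →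
    AnalyticAt ℂ (fun y : (ℂ × ℂ) × (ℂ × ℂ) => toFun (φ y.1) (fderiv ℂ φ y.1 y.2)) (p, w)

/-- No nonconstant entire curve in `X` is tangent to `θ`. -/
def SymDiff.NoTangent {X : Set (EN N)} {m : ℕ} (θ : SymDiff X m) : Prop :=
  ∀ F : ℂ → EN N, Differentiable ℂ F → (∀ z, F z ∈ X) → (∀ z, θ.toFun (F z) (deriv F z) = 0) → ∀ z w, ∃ c : ℂ, F z = c • F w

end Pool.Agent.H92.TH
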