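import Pool.Agent.H92.TH.Defs
import Pool.Agent.H14.PP.ChartBasic
import Pool.Agent.H14.PP.ChartFs

/-!
# TH Bas: basic properties of symmetric differentials

`tC θ χ` is the expression of `θ` in the chart `χ`; `SymDiff.curve` is the value of `θ` on the derivative of a curve, `SymDiff.lift_eq` says
that it does not depend on the lift, `SymDiff.curve_an` that it is holomorphic, and `SymDiff.bound` compares `θ` with the metric `fs`.
-/

set_option autoImplicit false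

open Topology Filter Metric

namespace Pool.Agent.H92.TH

open Pool.Agent.H36.BP (EN fs wd)
open Pool.Agent.H14.PP (IsCone Chart Form Tan CurveAt IsOpenPart)
open Pool.Agent.H62.EF (Charts)

variable {N : ℕ} {X : Set (EN N)} {m : ℕ}

theorem isOpenPart_self (hX : IsCone X) : IsOpenPart X X :=
  ⟨subset_rfl, hX.smul_mem, fun _ _ => Eventually.of_forall fun _ h => h⟩

theorem tan_smul (hX : IsCone X) {x v : EN N} (h : Tan X x v) {c : ℂ} (hc : c ≠ 0) : Tan X (c • x) (c • v) := by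
  obtain ⟨F, ⟨hF, hFX⟩, h0, hd⟩ := h
  have hcF : AnalyticAt ℂ (fun z => c • F z) 0 := by fun_prop
  refine ⟨fun z => c • F z, ⟨hcF, ?_⟩, ?_, ?_⟩
  · filter_upwards [hFX] with z hz
    exact hX.smul_mem _ hz c hc
  · simp only [h0]
  · have h1 := hF.differentiableAt.hasDerivAt.const_smul c
    have h2 : deriv (fun z => c • F z) 0 = c • deriv F 0 := h1.deriv
    rw [h2, hd]

theorem tan_mem {x v : EN N} (h : Tan X x v) : x ∈ X := by
  obtain ⟨F, hF, h0, _⟩ := h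
  rw [← h0]
  exact hF.2.self_of_nhds

theorem tan_sigma (hX : IsCone X) (χ : Chart X) {p : ℂ × ℂ} (hp : p ∈ ball (0 : ℂ × ℂ) 2) (w : ℂ × ℂ) :
    Tan X (χ.σ p) (fderiv ℂ χ.σ p w) :=
  χ.tan (isOpenPart_self hX) hp (χ.σ_mem p hp).1 w

/-- The expression of the differential in a chart. -/
noncomputable def tC (θ : SymDiff X m) (χ : Chart X) (y : (ℂ × ℂ) × (ℂ × ℂ)) : ℂ := θ.toFun (χ.σ y.1) (fderiv ℂ χ.σ y.1 y.2)

theorem tC_an (θ : SymDiff X m) (χ : Chart X) {p : ℂ × ℂ} (hp : p ∈ ball (0 : ℂ × ℂ) 2) (w : ℂ × ℂ) :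
    AnalyticAt ℂ (tC θ χ) (p, w) := by
  refine θ.analytic χ.σ p w (χ.σ_an p hp) ?_
  filter_upwards [isOpen_ball.mem_nhds hp] with y hy
  exact (χ.σ_mem y hy).1

theorem tC_smul (hX : IsCone X) (θ : SymDiff X m) (χ : Chart X) {p : ℂ × ℂ} (hp : p ∈ ball (0 : ℂ × ℂ) 2) (a : ℂ) (w : ℂ × ℂ) :
    tC θ χ (p, a • w) = a ^ m * tC θ χ (p, w) := by
  unfold tC
  simp only [map_smul]
  exact θ.smul _ (χ.σ_mem p hp).1 _ (tan_sigma hX χ hp w) a

/-- The value of `θ` on the derivative of a curve. -/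
theorem SymDiff.curve (hX : IsCone X) (θ : SymDiff X m) (χ : Chart X) {F : ℂ → EN N} {z₀ : ℂ} (hF : CurveAt X F z₀) (hU : F z₀ ∈ χ.U) :
    θ.toFun (F z₀) (deriv F z₀) = tC θ χ (χ.q (F z₀), deriv (fun z => χ.q (F z)) z₀) := by
  obtain ⟨hq, _, c, hc, hc0, hev⟩ := χ.curve hX hF hU
  have hp : χ.q (F z₀) ∈ ball (0 : ℂ × ℂ) 2 := hev.self_of_nhds.1
  have hF0 : F z₀ = c z₀ • χ.σ (χ.q (F z₀)) := hev.self_of_nhds.2
  have h1 : HasDerivAt (fun z => χ.σ (χ.q (F z))) (fderiv ℂ χ.σ (χ.q (F z₀)) (deriv (fun z => χ.q (F z)) z₀)) z₀ :=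
    (χ.σ_an _ hp).differentiableAt.hasFDerivAt.comp_hasDerivAt z₀ hq.differentiableAt.hasDerivAt
  have h2 : HasDerivAt (fun z => c z • χ.σ (χ.q (F z))) (c z₀ • fderiv ℂ χ.σ (χ.q (F z₀)) (deriv (fun z => χ.q (F z)) z₀) +
      deriv c z₀ • χ.σ (χ.q (F z₀))) z₀ := hc.differentiableAt.hasDerivAt.smul h1
  have h3 : F =ᶠ[𝓝 z₀] fun z => c z • χ.σ (χ.q (F z)) := by
    filter_upwards [hev] with z hz
    exact hz.2
  have h4 : deriv F z₀ = c z₀ • fderiv ℂ χ.σ (χ.q (F z₀)) (deriv (fun z => χ.q (F z)) z₀) +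
      (deriv c z₀ * (c z₀)⁻¹) • (c z₀ • χ.σ (χ.q (F z₀))) := by
    rw [h3.deriv_eq, h2.deriv, smul_smul, mul_assoc, inv_mul_cancel₀ hc0, mul_one]
  have ht := tan_sigma hX χ hp (deriv (fun z => χ.q (F z)) z₀)
  have hm := (χ.σ_mem _ hp).1
  unfold tC
  simp only
  generalize χ.q (F z₀) = p at hp hF0 h4 ht hm ⊢
  generalize deriv (fun z => χ.q (F z)) z₀ = w at h4 ht ⊢
  rw [h4, hF0, θ.add_smul _ (hX.smul_mem _ hm _ hc0) _ (tan_smul hX ht hc0), θ.scale _ hm _ ht _ hc0]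

/-- The value of `θ` does not depend on the lift of the curve. -/
theorem SymDiff.lift_eq (hX : IsCone X) (hch : Charts X) (θ : SymDiff X m) {F G : ℂ → EN N} {z₀ : ℂ} (hF : CurveAt X F z₀)
    (hG : CurveAt X G z₀) (h : ∀ᶠ z in 𝓝 z₀, ∃ c : ℂ, c ≠ 0 ∧ F z = c • G z) :
    θ.toFun (F z₀) (deriv F z₀) = θ.toFun (G z₀) (deriv G z₀) := by
  obtain ⟨χ, hU, _⟩ := hch (G z₀) hG.2.self_of_nhds
  have hFU : F z₀ ∈ χ.U := by
    obtain ⟨c, hc, h1⟩ := h.self_of_nhds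
    rw [h1]
    exact χ.smul_U _ hU c hc
  have hev : (fun z => χ.q (F z)) =ᶠ[𝓝 z₀] fun z => χ.q (G z) := by
    filter_upwards [h, hG.1.continuousAt (χ.isOpen_U.mem_nhds hU)] with z hz hz2
    obtain ⟨c, hc, h1⟩ := hz
    rw [h1]
    exact χ.q_smul _ hz2 c hc
  have h0 : χ.q (F z₀) = χ.q (G z₀) := hev.self_of_nhds
  rw [SymDiff.curve hX θ χ hF hFU, SymDiff.curve hX θ χ hG hU, hev.deriv_eq, h0]

/-- The value of `θ` on the derivative of a holomorphic curve is a holomorphic function. -/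
theorem SymDiff.curve_an (hX : IsCone X) (hch : Charts X) (θ : SymDiff X m) {F : ℂ → EN N} {z₀ : ℂ} (hF : CurveAt X F z₀) :
    AnalyticAt ℂ (fun z => θ.toFun (F z) (deriv F z)) z₀ := by
  obtain ⟨χ, hU, _⟩ := hch (F z₀) hF.2.self_of_nhds
  obtain ⟨hq, _, _, _, _, hev⟩ := χ.curve hX hF hU
  have h1 : AnalyticAt ℂ (fun z => tC θ χ (χ.q (F z), deriv (fun z => χ.q (F z)) z)) z₀ := by
    have h2 : AnalyticAt ℂ (fun z => (χ.q (F z), deriv (fun z => χ.q (F z)) z)) z₀ := hq.prod hq.deriv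
    exact AnalyticAt.comp (g := tC θ χ) (f := fun z => (χ.q (F z), deriv (fun z => χ.q (F z)) z))
      (tC_an θ χ hev.self_of_nhds.1 _) h2
  refine h1.congr ?_
  filter_upwards [hF.1.eventually_analyticAt, hF.2.eventually_nhds, hF.1.continuousAt (χ.isOpen_U.mem_nhds hU)] with z h3 h4 h5
  exact (SymDiff.curve hX θ χ ⟨h3, h4⟩ h5).symm

/-- The value of `θ` on a tangent vector. -/
theorem SymDiff.eq_tC (hX : IsCone X) (θ : SymDiff X m) (χ : Chart X) {x v : EN N} (h : Tan X x v) (hU : x ∈ χ.U) :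
    θ.toFun x v = tC θ χ (χ.q x, fderiv ℂ χ.q x v) := by
  obtain ⟨F, hF, h0, hd⟩ := h
  subst h0 hd
  rw [SymDiff.curve hX θ χ hF hU, (χ.curve hX hF hU).2.1]

theorem fs_scale {x : EN N} (hx : x ≠ 0) (v : EN N) {c : ℂ} (hc : c ≠ 0) : fs (c • x) (c • v) = fs x v := by
  have h := Pool.Agent.H36.BP.fs_inv hx v hc 0
  rwa [zero_smul, add_zero] at h

/-- The local bound. -/
theorem SymDiff.bound_chart (hX : IsCone X) (θ : SymDiff X m) (χ : Chart X) :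
    ∃ C : ℝ, 0 < C ∧ ∀ x ∈ X, x ∈ χ.U → ‖χ.q x‖ ≤ 1 → ∀ v, Tan X x v → ‖θ.toFun x v‖ ≤ C * fs x v ^ m := by
  obtain ⟨C₂, hC₂, h2, _⟩ := χ.exists_fs_bound hX
  have hsub : closedBall (0 : ℂ × ℂ) 1 ⊆ ball (0 : ℂ × ℂ) 2 := closedBall_subset_ball (by norm_num)
  have hcomp : IsCompact (closedBall (0 : ℂ × ℂ) 1 ×ˢ closedBall (0 : ℂ × ℂ) 1) :=
    (isCompact_closedBall _ _).prod (isCompact_closedBall _ _)
  obtain ⟨C₁, hC₁⟩ := hcomp.exists_bound_of_continuousOn (f := tC θ χ) (by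
    rintro ⟨p, w⟩ ⟨hp, _⟩
    exact (tC_an θ χ (hsub hp) w).continuousAt.continuousWithinAt)
  have hC₁0 : 0 ≤ C₁ := (norm_nonneg _).trans (hC₁ ((0 : ℂ × ℂ), (0 : ℂ × ℂ))
    ⟨mem_closedBall_self zero_le_one, mem_closedBall_self zero_le_one⟩)
  refine ⟨(C₁ + 1) * C₂ ^ m, by positivity, ?_⟩
  intro x hx hU hq v hv
  rw [SymDiff.eq_tC hX θ χ hv hU]
  set w := fderiv ℂ χ.q x v with hw
  have hp : χ.q x ∈ closedBall (0 : ℂ × ℂ) 1 := by rwa [mem_closedBall_zero_iff]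
  have h3 : ‖tC θ χ (χ.q x, w)‖ ≤ C₁ * ‖w‖ ^ m := by
    obtain ⟨u, hu, hwu⟩ : ∃ u : ℂ × ℂ, ‖u‖ ≤ 1 ∧ w = ((‖w‖ : ℝ) : ℂ) • u := by
      by_cases h0 : w = 0
      · exact ⟨0, by simp, by simp [h0]⟩
      · have hn : ‖w‖ ≠ 0 := norm_ne_zero_iff.mpr h0
        refine ⟨((‖w‖⁻¹ : ℝ) : ℂ) • w, ?_, ?_⟩
        · rw [norm_smul, Complex.norm_real, Real.norm_of_nonneg (by positivity), inv_mul_cancel₀ hn]
        · rw [smul_smul, ← Complex.ofReal_mul, mul_inv_cancel₀ hn, Complex.ofReal_one, one_smul]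
    have h4 : tC θ χ (χ.q x, w) = ((‖w‖ : ℝ) : ℂ) ^ m * tC θ χ (χ.q x, u) := by
      conv_lhs => rw [hwu]
      exact tC_smul hX θ χ (hsub hp) _ u
    rw [h4, norm_mul, norm_pow, Complex.norm_real, Real.norm_of_nonneg (norm_nonneg _), mul_comm]
    exact mul_le_mul_of_nonneg_right (hC₁ (χ.q x, u) ⟨hp, by rwa [mem_closedBall_zero_iff]⟩) (by positivity)
  have h5 : ‖w‖ ≤ C₂ * fs x v := h2 x hx hU hq v
  have h6 : ‖w‖ ^ m ≤ (C₂ * fs x v) ^ m := pow_le_pow_left₀ (norm_nonneg _) h5 m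
  have h7 : 0 ≤ (C₂ * fs x v) ^ m := le_trans (by positivity) h6
  calc ‖tC θ χ (χ.q x, w)‖ ≤ C₁ * ‖w‖ ^ m := h3
    _ ≤ C₁ * (C₂ * fs x v) ^ m := mul_le_mul_of_nonneg_left h6 hC₁0
    _ ≤ (C₁ + 1) * (C₂ * fs x v) ^ m := mul_le_mul_of_nonneg_right (by linarith) h7
    _ = (C₁ + 1) * C₂ ^ m * fs x v ^ m := by rw [mul_pow]; ring

/-- `θ` is bounded by the metric. -/
theorem SymDiff.bound (hX : IsCone X) (hch : Charts X) (θ : SymDiff X m) :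
    ∃ C : ℝ, 0 < C ∧ ∀ x ∈ X, ∀ v, Tan X x v → ‖θ.toFun x v‖ ≤ C * fs x v ^ m := by
  have hX0 : ∀ x ∈ X, x ≠ 0 := fun x hx h => hX.zero_notMem (h ▸ hx)
  have hcomp : IsCompact (sphere (0 : EN N) 1 ∩ insert 0 X) := (isCompact_sphere _ _).inter_right hX.closed
  have hloc : ∃ C : ℝ, 0 < C ∧ ∀ x ∈ sphere (0 : EN N) 1 ∩ insert 0 X, x ∈ X → ∀ v, Tan X x v → ‖θ.toFun x v‖ ≤ C * fs x v ^ m := by
    refine hcomp.induction_on (p := fun S => ∃ C : ℝ, 0 < C ∧ ∀ x ∈ S, x ∈ X → ∀ v, Tan X x v → ‖θ.toFun x v‖ ≤ C * fs x v ^ m)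
      ⟨1, one_pos, fun x hx => absurd hx (Set.notMem_empty x)⟩ ?_ ?_ ?_
    · rintro S T hST ⟨C, hC, h⟩
      exact ⟨C, hC, fun x hx => h x (hST hx)⟩
    · rintro S T ⟨C, hC, h⟩ ⟨C', hC', h'⟩
      refine ⟨max C C', lt_max_of_lt_left hC, fun x hx hxX v hv => ?_⟩
      have hf : 0 ≤ fs x v ^ m := pow_nonneg (Pool.Agent.H36.BP.fs_nonneg x v) m
      rcases hx with hx | hx
      · exact (h x hx hxX v hv).trans (mul_le_mul_of_nonneg_right (le_max_left _ _) hf)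
      · exact (h' x hx hxX v hv).trans (mul_le_mul_of_nonneg_right (le_max_right _ _) hf)
    · rintro x ⟨hx1, hx2⟩
      have hx0 : x ≠ 0 := by
        rintro rfl
        simp at hx1
      have hxX : x ∈ X := by
        rcases hx2 with h | h
        · exact absurd h hx0
        · exact h
      obtain ⟨χ, hU, hq⟩ := hch x hxX
      obtain ⟨C, hC, h⟩ := SymDiff.bound_chart hX θ χ
      refine ⟨{y | y ∈ χ.U ∧ ‖χ.q y‖ ≤ 1}, ?_, C, hC, fun y hy hyX v hv => h y hyX hy.1 hy.2 v hv⟩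
      refine mem_nhdsWithin_of_mem_nhds ?_
      have h1 : ∀ᶠ y in 𝓝 x, ‖χ.q y‖ < 1 := by
        have h2 : ContinuousAt (fun y => ‖χ.q y‖) x := (χ.q_an x hU).continuousAt.norm
        exact h2.eventually_lt_const (by simp [hq])
      filter_upwards [χ.isOpen_U.mem_nhds hU, h1] with y hy1 hy2
      exact ⟨hy1, hy2.le⟩
  obtain ⟨C, hC, h⟩ := hloc
  refine ⟨C, hC, fun x hx v hv => ?_⟩
  have hx0 := hX0 x hx
  have hn : ‖x‖ ≠ 0 := norm_ne_zero_iff.mpr hx0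
  set c : ℂ := ((‖x‖⁻¹ : ℝ) : ℂ) with hcdef
  have hc : c ≠ 0 := by
    rw [hcdef]
    exact_mod_cast inv_ne_zero hn
  have hcx : c • x ∈ X := hX.smul_mem x hx c hc
  have h1 : ‖c • x‖ = 1 := by
    rw [norm_smul, hcdef, Complex.norm_real, Real.norm_of_nonneg (by positivity), inv_mul_cancel₀ hn]
  have h2 := h (c • x) ⟨by rwa [mem_sphere_zero_iff_norm], Or.inr hcx⟩ hcx (c • v) (tan_smul hX hv hc)
  rwa [θ.scale x hx v hv c hc, fs_scale hx0 v hc] at h2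

end Pool.Agent.H92.TH
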